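import Pool.Agent.U136.DX.Stm
import Pool.Agent.U741.DS.APRD

set_option autoImplicit false

/-! (APRC) A priori bounds for the truncated systems with a dispersive term, critical case. A change of
the proof of (APRD) of helper741. -/

namespace Pool.Agent.U187.DX

open Pool.Agent.N983.RT Pool.Agent.U136.DS Pool.Agent.U136.DX Pool.Agent.U527.RT
  Pool.Agent.U741.DS Set

/-- (APRC) a priori bounds for the truncated systems, critical case -/
theorem t_APRC : S_APRC := by
  intro hS hA ν lam c₁ τ hν _ hc₁ hQ hDQ u₀ hadm hr s T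
  obtain ⟨M0, hM0, hI0⟩ := init_bound hS hr 0
  have hEn : ∀ (s n : ℕ) (u : Fld), 0 ≤ En s n u := fun s n u => by
    unfold En
    refine Finset.sum_nonneg fun k _ => mul_nonneg (pow_nonneg (nsq_nonneg k) _)
      (Finset.sum_nonneg fun i _ => by positivity)
  -- the derivative of the energy
  have hdE : ∀ (n : ℕ) (u : ℝ → Fld), IsSolD (cutg n one) ν lam u →
      (∀ t, 0 ≤ t → ∀ k, k ∉ cub n → u t k = 0) → ∀ t, 0 ≤ t →
      HasDerivWithinAt (fun t => En 0 n (u t)) (-2 * ν * En 1 n (u t)) (Ici 0) t := by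
    intro n u hu hsupp t ht
    have h1 := deriv_EnD hu 0 n ht
    rw [(hA one n (u t) arr_one (hu.adm t ht) (hsupp t ht)).2] at h1
    have h2 : Er (((0 : ℕ) : ℝ) + 1) n (u t) = En 1 n (u t) := by
      unfold Er En
      refine Finset.sum_congr rfl fun k _ => ?_
      rw [Nat.cast_zero, zero_add, Real.rpow_one, pow_one]
    rw [h2, mul_zero, add_zero] at h1
    exact h1
  -- the energy
  have hE0 : ∀ (n : ℕ) (u : ℝ → Fld), IsSolD (cutg n one) ν lam u → u 0 = cut n u₀ →
      (∀ t, 0 ≤ t → ∀ k, k ∉ cub n → u t k = 0) → ∀ t, 0 ≤ t → En 0 n (u t) ≤ M0 := by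
    intro n u hu h0 hsupp t ht
    have h1 := gron (c := 0) (hdE n u hu hsupp) (fun t ht => by
      have h2 := mul_nonneg hν.le (hEn 1 n (u t))
      nlinarith) t ht
    rw [zero_mul, Real.exp_zero, mul_one, h0] at h1
    exact h1.trans (hI0 n)
  -- the other norms
  have hE2 : ∀ s : ℕ, 2 ≤ s → ∃ C : ℝ, ∀ (n : ℕ) (u : ℝ → Fld),
      IsSolD (cutg n one) ν lam u → u 0 = cut n u₀ →
      (∀ t, 0 ≤ t → ∀ k, k ∉ cub n → u t k = 0) → ∀ t, 0 ≤ t → t ≤ T → En s n (u t) ≤ C := by
    intro s hs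
    obtain ⟨M, hM, hI⟩ := init_bound hS hr s
    obtain ⟨C1, hC1⟩ := hQ s hs M0 (ν / 4) (by positivity)
    obtain ⟨C2, hC2⟩ := hQ s hs M0 (1 / 4) (by norm_num)
    obtain ⟨a, ha⟩ : ∃ a : ℝ, a = 4 * |C1| := ⟨_, rfl⟩
    have ha0 : 0 ≤ a := by rw [ha]; positivity
    obtain ⟨K, hK⟩ : ∃ K : ℝ, K = 2 * |C2| := ⟨_, rfl⟩
    obtain ⟨A, hAA⟩ : ∃ A : ℝ, A = a / (2 * ν) := ⟨_, rfl⟩
    have hA0 : 0 ≤ A := by rw [hAA]; positivity
    have hAν : A * (2 * ν) = a := by rw [hAA]; field_simp
    refine ⟨2 * ((3 / 2 * |M| + 4 * |C2| + a * T) * Real.exp (A * M0)),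
      fun n u hu h0 hsupp t ht htT => ?_⟩
    obtain ⟨Y, hY⟩ : ∃ Y : ℝ → ℝ, Y = fun t =>
        (En s n (u t) - 2 * (form (hnf lam c₁ τ) s n (u t)).re) + K := ⟨_, rfl⟩
    have hB : ∀ t, 0 ≤ t → |(form (hnf lam c₁ τ) s n (u t)).re| ≤
        1 / 4 * En s n (u t) + |C2| := fun t ht =>
      (Complex.abs_re_le_norm _).trans (((hC2 n (u t) (hu.adm t ht) (hsupp t ht)
        (hE0 n u hu h0 hsupp t ht)).1).trans (by have := le_abs_self C2; linarith))
    have hYlow : ∀ t, 0 ≤ t → En s n (u t) ≤ 2 * Y t := by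
      intro t ht
      have h1 := abs_le.1 (hB t ht)
      rw [hY, hK]
      simp only
      linarith [h1.1, h1.2]
    have hd : ∀ t, 0 ≤ t → HasDerivWithinAt Y
        ((-2 * ν * Er ((s : ℝ) + 1) n (u t) + 2 * flux (cutg n one) s n (u t)) -
          2 * (-Complex.I * form (far lam c₁ τ) s n (u t) +
            dform (hnf lam c₁ τ) s n (u t) (rhs (cutg n one) ν 1 (u t))).re) (Ici 0) t := by
      intro t ht
      have h1 := deriv_EnD hu s n ht
      have h2 := hDQ lam c₁ τ ν hc₁ s n u hu hsupp t ht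
      have h3 := (Complex.reCLM.hasFDerivAt.comp_hasDerivWithinAt t h2)
      rw [hY]
      exact (h1.sub (h3.const_mul 2)).add_const _
    have hb : ∀ t, 0 ≤ t → (-2 * ν * Er ((s : ℝ) + 1) n (u t) +
        2 * flux (cutg n one) s n (u t)) -
          2 * (-Complex.I * form (far lam c₁ τ) s n (u t) +
            dform (hnf lam c₁ τ) s n (u t) (rhs (cutg n one) ν 1 (u t))).re ≤
        a + a * En 1 n (u t) * Y t := by
      intro t ht
      have hz := (hu.adm t ht).zero
      rw [(hA one n (u t) arr_one (hu.adm t ht) (hsupp t ht)).1 s, form_one lam c₁ τ s n hz,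
        mul_add, Complex.add_re, Complex.add_re]
      obtain ⟨_, h1, h2⟩ := hC1 n (u t) (hu.adm t ht) (hsupp t ht) (hE0 n u hu h0 hsupp t ht)
      have h3 := re_I_le (form (near lam c₁ τ) s n (u t))
      have h4 : -(dform (hnf lam c₁ τ) s n (u t) (rhs (cutg n one) ν 1 (u t))).re ≤
          ‖dform (hnf lam c₁ τ) s n (u t) (rhs (cutg n one) ν 1 (u t))‖ :=
        (neg_le_abs _).trans (Complex.abs_re_le_norm _)
      have h5 := Er_nonneg ((s : ℝ) + 1) n (u t)
      have h6 := le_abs_self C1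
      have h7 : 0 ≤ ν * Er ((s : ℝ) + 1) n (u t) := mul_nonneg hν.le h5
      have h8 : 0 ≤ En 1 n (u t) * En s n (u t) := mul_nonneg (hEn _ _ _) (hEn _ _ _)
      have h9 : C1 * (1 + En 1 n (u t) * En s n (u t)) ≤
          |C1| * (1 + En 1 n (u t) * En s n (u t)) :=
        mul_le_mul_of_nonneg_right h6 (by linarith)
      have h10 : |C1| * (En 1 n (u t) * En s n (u t)) ≤ |C1| * (En 1 n (u t) * (2 * Y t)) :=
        mul_le_mul_of_nonneg_left (mul_le_mul_of_nonneg_left (hYlow t ht) (hEn _ _ _))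
          (abs_nonneg _)
      rw [ha]
      linarith
    have hW : ∀ t, 0 ≤ t → Y t * Real.exp (A * En 0 n (u t)) ≤
        Y 0 * Real.exp (A * En 0 n (u 0)) + a * Real.exp (A * M0) * t := by
      refine lin (f := fun t => Y t * Real.exp (A * En 0 n (u t)))
        (f' := fun t => ((-2 * ν * Er ((s : ℝ) + 1) n (u t) + 2 * flux (cutg n one) s n (u t)) -
          2 * (-Complex.I * form (far lam c₁ τ) s n (u t) +
            dform (hnf lam c₁ τ) s n (u t) (rhs (cutg n one) ν 1 (u t))).re) *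
              Real.exp (A * En 0 n (u t)) +
            Y t * (Real.exp (A * En 0 n (u t)) * (A * (-2 * ν * En 1 n (u t))))) ?_ ?_
      · intro t ht
        exact (hd t ht).mul (((hdE n u hu hsupp t ht).const_mul A).exp)
      · intro t ht
        have h1 := mul_le_mul_of_nonneg_right (hb t ht) (Real.exp_pos (A * En 0 n (u t))).le
        have h2 : Y t * (Real.exp (A * En 0 n (u t)) * (A * (-2 * ν * En 1 n (u t)))) =
            -(a * En 1 n (u t) * Y t) * Real.exp (A * En 0 n (u t)) := by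
          rw [← hAν]
          ring
        have h3 : a * Real.exp (A * En 0 n (u t)) ≤ a * Real.exp (A * M0) :=
          mul_le_mul_of_nonneg_left (Real.exp_le_exp.2
            (mul_le_mul_of_nonneg_left (hE0 n u hu h0 hsupp t ht) hA0)) ha0
        rw [h2]
        linarith
    have h1 := hW t ht
    have hY0 : 0 ≤ Y t := by
      have := hYlow t ht
      have := hEn s n (u t)
      linarith
    have h2 : Y t ≤ Y t * Real.exp (A * En 0 n (u t)) :=
      le_mul_of_one_le_right hY0 (Real.one_le_exp (mul_nonneg hA0 (hEn _ _ _)))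
    have h3 : Y 0 ≤ 3 / 2 * |M| + 4 * |C2| := by
      have h4 := abs_le.1 (hB 0 le_rfl)
      have h5 : En s n (u 0) ≤ |M| := by
        rw [h0]
        exact (hI n).trans (le_abs_self M)
      rw [hY, hK]
      simp only
      linarith [h4.1, h4.2]
    have hY00 : 0 ≤ Y 0 := by
      have := hYlow 0 le_rfl
      have := hEn s n (u 0)
      linarith
    have h4 : Y 0 * Real.exp (A * En 0 n (u 0)) ≤
        (3 / 2 * |M| + 4 * |C2|) * Real.exp (A * M0) :=
      mul_le_mul h3 (Real.exp_le_exp.2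
        (mul_le_mul_of_nonneg_left (hE0 n u hu h0 hsupp 0 le_rfl) hA0)) (Real.exp_pos _).le
        (hY00.trans h3)
    have h5 : a * Real.exp (A * M0) * t ≤ a * Real.exp (A * M0) * T :=
      mul_le_mul_of_nonneg_left htT (mul_nonneg ha0 (Real.exp_pos _).le)
    have h6 := hYlow t ht
    calc En s n (u t) ≤ 2 * Y t := h6
      _ ≤ 2 * ((3 / 2 * |M| + 4 * |C2|) * Real.exp (A * M0) + a * Real.exp (A * M0) * T) := by
          linarith
      _ = _ := by ring
  rcases Nat.lt_or_ge s 2 with h | h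
  · interval_cases s
    · exact ⟨M0, fun n u hu h0 hsupp t ht _ => hE0 n u hu h0 hsupp t ht⟩
    · obtain ⟨C, hC⟩ := hE2 2 le_rfl
      refine ⟨M0 + C, fun n u hu h0 hsupp t ht htT => (En_one_le n (u t)).trans ?_⟩
      exact add_le_add (hE0 n u hu h0 hsupp t ht) (hC n u hu h0 hsupp t ht htT)
  · exact hE2 s h

end Pool.Agent.U187.DX
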